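import Pool.Agent.H76.SF.Stm2

set_option autoImplicit false

namespace H11.SF

open Finset Classical H76.SF

theorem t_REG : S_REG := by
  intro m a ham he
  have hm : 0 < m := by omega
  have : NeZero m := ⟨by omega⟩
  have hpar : a % 2 = 1 → m % 2 = 0 := by
    intro h
    rcases Nat.even_mul.1 he with h1 | h1
    · exact Nat.even_iff.1 h1
    · have := Nat.even_iff.1 h1
      omega
  set b := a / 2 with hb
  let P : ℕ → Prop := fun i => i ≤ b ∨ m - i ≤ b ∨ (a % 2 = 1 ∧ 2 * i = m)
  have hneg : ∀ y : Fin m, y ≠ 0 → ((-y : Fin m) : ℕ) = m - (y : ℕ) := by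
    intro y hy
    rw [Fin.val_neg', Nat.mod_eq_of_lt]
    have : (y : ℕ) ≠ 0 := fun h => hy (Fin.ext (by simpa using h))
    have := y.2
    omega
  let H : SimpleGraph (Fin m) :=
    { Adj := fun v x => x - v ≠ 0 ∧ P ((x - v : Fin m) : ℕ)
      symm := ⟨by
        intro v x h
        obtain ⟨h1, h2⟩ := h
        have e : v - x = -(x - v) := by abel
        have h3 : v - x ≠ 0 := by rw [e]; exact neg_ne_zero.2 h1
        refine ⟨h3, ?_⟩
        rw [e, hneg _ h1]
        have h4 := (x - v : Fin m).2
        simp only [P] at h2 ⊢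
        omega⟩
      loopless := ⟨fun v h => h.1 (sub_self v)⟩ }
  refine ⟨H, fun v => ?_⟩
  have e1 : ∀ (inst : DecidablePred fun x => H.Adj v x),
      (@Finset.filter _ (fun x => H.Adj v x) inst univ).card =
      (univ.filter (fun y : Fin m => y ≠ 0 ∧ P (y : ℕ))).card := by
    intro inst
    refine Finset.card_bij (fun x _ => x - v) (fun x hx => ?_) (fun x _ y _ h => ?_) (fun y hy => ?_)
    · rw [mem_filter] at hx ⊢
      exact ⟨mem_univ _, hx.2⟩
    · exact sub_left_inj.1 h
    · refine ⟨y + v, ?_, by simp⟩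
      rw [mem_filter] at hy ⊢
      refine ⟨mem_univ _, ?_⟩
      show y + v - v ≠ 0 ∧ P ((y + v - v : Fin m) : ℕ)
      rw [add_sub_cancel_right]
      exact hy.2
  have e2 : (univ.filter (fun y : Fin m => y ≠ 0 ∧ P (y : ℕ))).card =
      ((Finset.range m).filter (fun i => i ≠ 0 ∧ P i)).card := by
    rw [← Finset.card_map Fin.valEmbedding]
    congr 1
    ext i
    simp only [mem_map, mem_filter, mem_univ, true_and, Fin.valEmbedding_apply, mem_range]
    constructor
    · rintro ⟨y, ⟨h1, h2⟩, rfl⟩
      exact ⟨y.2, fun h => h1 (Fin.ext (by simpa using h)), h2⟩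
    · rintro ⟨h1, h2, h3⟩
      exact ⟨⟨i, h1⟩, ⟨fun h => h2 (by simpa using congrArg Fin.val h), h3⟩, rfl⟩
  refine (e1 _).trans (e2.trans ?_)
  have hd1 : Disjoint (Finset.Icc 1 b) (Finset.Ico (m - b) m) := by
    rw [Finset.disjoint_left]
    intro i h1 h2
    rw [mem_Icc] at h1
    rw [mem_Ico] at h2
    omega
  rcases Nat.mod_two_eq_zero_or_one a with h0 | h0
  · have e3 : (Finset.range m).filter (fun i => i ≠ 0 ∧ P i) =
        Finset.Icc 1 b ∪ Finset.Ico (m - b) m := by
      ext i
      simp only [mem_filter, mem_range, mem_union, mem_Icc, mem_Ico, P]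
      omega
    rw [e3, card_union_of_disjoint hd1, Nat.card_Icc, Nat.card_Ico]
    omega
  · have hm2 := hpar h0
    have e3 : (Finset.range m).filter (fun i => i ≠ 0 ∧ P i) =
        (Finset.Icc 1 b ∪ Finset.Ico (m - b) m) ∪ {m / 2} := by
      ext i
      simp only [mem_filter, mem_range, mem_union, mem_Icc, mem_Ico, mem_singleton, P]
      omega
    have hd2 : Disjoint (Finset.Icc 1 b ∪ Finset.Ico (m - b) m) {m / 2} := by
      rw [Finset.disjoint_singleton_right]
      simp only [mem_union, mem_Icc, mem_Ico]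
      omega
    rw [e3, card_union_of_disjoint hd2, card_union_of_disjoint hd1, Nat.card_Icc, Nat.card_Ico,
      card_singleton]
    omega

end H11.SF
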